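import Mathlib

/-!
# MP_a60c23_gt: a co-consonant T0 space whose lower powerspace is not co-consonant
-/

open Set TopologicalSpace
open scoped Topology

namespace Pool.Agent.Results.MP_a60c23_gt.LowerPowerspaceFails

/-- `U` is Scott open: an upper set such that every directed set whose supremum exists and lies
in `U` meets `U`. -/
def ScottOpen {P : Type*} [PartialOrder P] (U : Set P) : Prop :=
  (∀ x ∈ U, ∀ y, x ≤ y → y ∈ U) ∧
    ∀ D : Set P, D.Nonempty → DirectedOn (· ≤ ·) D → ∀ s, IsLUB D s → s ∈ U → ∃ d ∈ D, d ∈ U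

/-- The upper topology of a poset, generated by the complements of the principal ideals. -/
@[reducible] def upperTop (P : Type*) [PartialOrder P] : TopologicalSpace P :=
  generateFrom {s | ∃ a : P, s = {x | ¬ x ≤ a}}

/-- `X` is co-consonant: on the lattice of open sets of `X` the Scott topology and the upper
topology have the same open sets. -/
def CoConsonant (X : Type*) [TopologicalSpace X] : Prop :=
  ∀ F : Set (Opens X), ScottOpen F ↔ IsOpen[upperTop (Opens X)] F

/-- The points of the lower powerspace: all closed subsets. -/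
def Lower (X : Type*) [TopologicalSpace X] : Type _ := {F : Set X // IsClosed F}

/-- The lower Vietoris topology, generated by the sets of closed sets meeting an open set. -/
instance lowerTopology (X : Type*) [TopologicalSpace X] : TopologicalSpace (Lower X) :=
  generateFrom {B | ∃ U : Set X, IsOpen U ∧ B = {F : Lower X | (F.1 ∩ U).Nonempty}}

/-! ### General facts -/

lemma scott_of_upper {P : Type*} [PartialOrder P] {F : Set P} (h : IsOpen[upperTop P] F) :
    ScottOpen F := by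
  induction h with
  | basic s hs =>
    obtain ⟨a, rfl⟩ := hs
    refine ⟨fun x hx y hxy hy => hx (hxy.trans hy), fun D _ _ s hs hsa => ?_⟩
    by_contra hcon
    push Not at hcon
    exact hsa (hs.2 fun d hd => by
      by_contra hda
      exact hcon d hd hda)
  | univ =>
    exact ⟨fun _ _ _ _ => trivial, fun D hD _ s _ _ => ⟨hD.some, hD.some_mem, trivial⟩⟩
  | inter s t _ _ ihs iht =>
    refine ⟨fun x hx y hxy => ⟨ihs.1 x hx.1 y hxy, iht.1 x hx.2 y hxy⟩, ?_⟩
    intro D hD hdir a ha has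
    obtain ⟨d1, hd1, h1⟩ := ihs.2 D hD hdir a ha has.1
    obtain ⟨d2, hd2, h2⟩ := iht.2 D hD hdir a ha has.2
    obtain ⟨d3, hd3, h13, h23⟩ := hdir d1 hd1 d2 hd2
    exact ⟨d3, hd3, ihs.1 _ h1 _ h13, iht.1 _ h2 _ h23⟩
  | sUnion S _ ih =>
    refine ⟨fun x hx y hxy => ?_, ?_⟩
    · obtain ⟨t, ht, hxt⟩ := hx
      exact ⟨t, ht, (ih t ht).1 x hxt y hxy⟩
    · intro D hD hdir a ha has
      obtain ⟨t, ht, hat⟩ := has
      obtain ⟨d, hd, hdt⟩ := (ih t ht).2 D hD hdir a ha hat
      exact ⟨d, hd, t, ht, hdt⟩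

/-- Finitely generated families. -/
def FinGen {X : Type*} [TopologicalSpace X] (F : Set (Opens X)) : Prop :=
  ∀ U ∈ F, ∃ S : Set X, S.Finite ∧ S ⊆ (U : Set X) ∧ ∀ W : Opens X, S ⊆ (W : Set X) → W ∈ F

lemma finGen_of_upper {X : Type*} [TopologicalSpace X] {F : Set (Opens X)}
    (h : IsOpen[upperTop (Opens X)] F) : FinGen F := by
  induction h with
  | basic s hs =>
    obtain ⟨a, rfl⟩ := hs
    intro U hU
    have hU' : ¬ ((U : Set X) ⊆ (a : Set X)) := hU
    obtain ⟨p, hp1, hp2⟩ := not_subset.1 hU'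
    refine ⟨{p}, finite_singleton p, by simpa using hp1, fun W hW hWa => ?_⟩
    exact hp2 (hWa (hW (mem_singleton p)))
  | univ => exact fun U _ => ⟨∅, finite_empty, empty_subset _, fun _ _ => trivial⟩
  | inter s t _ _ ihs iht =>
    intro U hU
    obtain ⟨S, hS, hSU, hSW⟩ := ihs U hU.1
    obtain ⟨T, hT, hTU, hTW⟩ := iht U hU.2
    exact ⟨S ∪ T, hS.union hT, union_subset hSU hTU, fun W hW =>
      ⟨hSW W (subset_union_left.trans hW), hTW W (subset_union_right.trans hW)⟩⟩
  | sUnion S _ ih =>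
    intro U hU
    obtain ⟨t, ht, hUt⟩ := hU
    obtain ⟨T, hT, hTU, hTW⟩ := ih t ht U hUt
    exact ⟨T, hT, hTU, fun W hW => ⟨t, ht, hTW W hW⟩⟩

lemma upper_of_finGen {X : Type*} [TopologicalSpace X] {F : Set (Opens X)}
    (h : FinGen F) : IsOpen[upperTop (Opens X)] F := by
  let _ : TopologicalSpace (Opens X) := upperTop (Opens X)
  change IsOpen F
  rw [isOpen_iff_forall_mem_open]
  intro U hU
  obtain ⟨S, hS, hSU, hSW⟩ := h U hU
  refine ⟨⋂ p ∈ S, {W : Opens X | p ∈ W}, ?_, ?_, ?_⟩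
  · intro W hW
    refine hSW W fun p hp => ?_
    have := mem_iInter₂.1 hW p hp
    exact this
  · refine hS.isOpen_biInter fun p _ => ?_
    refine isOpen_generateFrom_of_mem ⟨⟨(closure {p})ᶜ, isClosed_closure.isOpen_compl⟩, ?_⟩
    ext W
    constructor
    · intro hp hle
      exact hle hp (subset_closure (mem_singleton p))
    · intro hnot
      by_contra hp
      refine hnot fun q hq hqp => ?_
      have h1 : W ∈ ({W | p ∈ W} : Set (Opens X)) := by
        obtain ⟨r, hr1, hr2⟩ := mem_closure_iff.1 hqp W W.2 hq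
        rw [mem_singleton_iff] at hr2
        subst hr2
        exact hr1
      exact hp h1
  · exact mem_iInter₂.2 fun p hp => hSU hp

lemma coConsonant_iff {X : Type*} [TopologicalSpace X] :
    CoConsonant X ↔ ∀ F : Set (Opens X), ScottOpen F → FinGen F :=
  ⟨fun h F hF => finGen_of_upper ((h F).1 hF), fun h F =>
    ⟨fun hF => upper_of_finGen (h F hF), scott_of_upper⟩⟩

/-- Basic open sets of the lower powerspace come from finite families of open sets. -/
lemma lower_basis {X : Type*} [TopologicalSpace X] {V : Set (Lower X)} (hV : IsOpen V) :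
    ∀ A ∈ V, ∃ T : Set (Set X), T.Finite ∧ (∀ U ∈ T, IsOpen U ∧ (A.1 ∩ U).Nonempty) ∧
      ∀ A' : Lower X, (∀ U ∈ T, (A'.1 ∩ U).Nonempty) → A' ∈ V := by
  induction hV with
  | basic s hs =>
    obtain ⟨U, hU, rfl⟩ := hs
    intro A hA
    refine ⟨{U}, finite_singleton _, ?_, fun A' h => h U rfl⟩
    rintro _ rfl
    exact ⟨hU, hA⟩
  | univ => exact fun A _ => ⟨∅, finite_empty, fun U hU => hU.elim, fun _ _ => trivial⟩
  | inter s t _ _ ihs iht =>
    intro A hA
    obtain ⟨T, hT, h1, h2⟩ := ihs A hA.1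
    obtain ⟨T', hT', h1', h2'⟩ := iht A hA.2
    refine ⟨T ∪ T', hT.union hT', ?_, fun A' h => ⟨h2 A' fun U hU => h U (Or.inl hU),
      h2' A' fun U hU => h U (Or.inr hU)⟩⟩
    rintro U (hU | hU)
    exacts [h1 U hU, h1' U hU]
  | sUnion S _ ih =>
    intro A hA
    obtain ⟨t, ht, hAt⟩ := hA
    obtain ⟨T, hT, h1, h2⟩ := ih t ht A hAt
    exact ⟨T, hT, h1, fun A' h => ⟨t, ht, h2 A' h⟩⟩

/-- The closed sets meeting `U`, as an open subset of the lower powerspace. -/
def dia {X : Type*} [TopologicalSpace X] (U : Set X) (hU : IsOpen U) : Opens (Lower X) :=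
  ⟨{F | (F.1 ∩ U).Nonempty}, isOpen_generateFrom_of_mem ⟨U, hU, rfl⟩⟩

/-- The closure of a set as a point of the lower powerspace. -/
def cl {X : Type*} [TopologicalSpace X] (S : Set X) : Lower X := ⟨closure S, isClosed_closure⟩

lemma cl_meets {X : Type*} [TopologicalSpace X] {S U : Set X} (hU : IsOpen U) :
    ((cl S).1 ∩ U).Nonempty ↔ (S ∩ U).Nonempty :=
  closure_inter_open_nonempty_iff hU

/-! ### The space -/

/-- The points of the space. -/
inductive Z : Type
  | x (n m : ℕ) : Z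
  | y (g : ℕ → ℕ) : Z
  | b : Z

/-- The open sets of the space. -/
def ZOpen (W : Set Z) : Prop :=
  (∀ n m, Z.x n m ∈ W → (∀ m', m ≤ m' → Z.x n m' ∈ W) ∧ (∀ n', ∃ m', Z.x n' m' ∈ W) ∧
    ∀ g, Z.y g ∈ W) ∧
  ∀ g, Z.y g ∈ W → ∃ k, ∀ g' : ℕ → ℕ, (∀ i < k, g' i ≤ g i) → Z.y g' ∈ W

instance zTopology : TopologicalSpace Z where
  IsOpen := ZOpen
  isOpen_univ := ⟨fun _ _ _ => ⟨fun _ _ => trivial, fun _ => ⟨0, trivial⟩, fun _ => trivial⟩,
    fun _ _ => ⟨0, fun _ _ => trivial⟩⟩
  isOpen_inter := by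
    intro s t hs ht
    refine ⟨fun n m h => ⟨fun m' hm' => ⟨(hs.1 n m h.1).1 m' hm', (ht.1 n m h.2).1 m' hm'⟩,
      fun n' => ?_, fun g => ⟨(hs.1 n m h.1).2.2 g, (ht.1 n m h.2).2.2 g⟩⟩, fun g hg => ?_⟩
    · obtain ⟨a, ha⟩ := (hs.1 n m h.1).2.1 n'
      obtain ⟨c, hc⟩ := (ht.1 n m h.2).2.1 n'
      exact ⟨max a c, (hs.1 n' a ha).1 _ (le_max_left _ _), (ht.1 n' c hc).1 _ (le_max_right _ _)⟩
    · obtain ⟨k, hk⟩ := hs.2 g hg.1
      obtain ⟨l, hl⟩ := ht.2 g hg.2
      exact ⟨max k l, fun g' hg' => ⟨hk g' fun i hi => hg' i (lt_max_of_lt_left hi),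
        hl g' fun i hi => hg' i (lt_max_of_lt_right hi)⟩⟩
  isOpen_sUnion := by
    intro S hS
    refine ⟨fun n m h => ?_, fun g hg => ?_⟩
    · obtain ⟨t, ht, hxt⟩ := h
      obtain ⟨h1, h2, h3⟩ := (hS t ht).1 n m hxt
      exact ⟨fun m' hm' => ⟨t, ht, h1 m' hm'⟩, fun n' => (h2 n').imp fun m' h => ⟨t, ht, h⟩,
        fun g => ⟨t, ht, h3 g⟩⟩
    · obtain ⟨t, ht, hgt⟩ := hg
      obtain ⟨k, hk⟩ := (hS t ht).2 g hgt
      exact ⟨k, fun g' hg' => ⟨t, ht, hk g' hg'⟩⟩

lemma z_isOpen {W : Set Z} : IsOpen W ↔ ZOpen W := Iff.rfl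

/-- The open set given by `f` on the columns, everything on the functions, and `b` if `p`. -/
def ux (p : Prop) (f : ℕ → ℕ) : Opens Z :=
  ⟨{z | match z with
    | Z.x n m => f n ≤ m
    | Z.y _ => True
    | Z.b => p}, by
    refine z_isOpen.2 ⟨fun n m h => ⟨fun m' hm' => le_trans (show f n ≤ m from h) hm',
      fun n' => ⟨f n', le_refl (f n')⟩, fun _ => trivial⟩, fun _ _ => ⟨0, fun _ _ => trivial⟩⟩⟩

@[simp] lemma x_mem_ux {p : Prop} {f : ℕ → ℕ} {n m : ℕ} : Z.x n m ∈ ux p f ↔ f n ≤ m := Iff.rfl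
@[simp] lemma y_mem_ux {p : Prop} {f g : ℕ → ℕ} : Z.y g ∈ ux p f ↔ True := Iff.rfl
@[simp] lemma b_mem_ux {p : Prop} {f : ℕ → ℕ} : Z.b ∈ ux p f ↔ p := Iff.rfl

/-- The open set without columns, `O` on the functions, and `b` if `p`. -/
def uy (p : Prop) (O : Set (ℕ → ℕ))
    (hO : ∀ g ∈ O, ∃ k, ∀ g' : ℕ → ℕ, (∀ i < k, g' i ≤ g i) → g' ∈ O) : Opens Z :=
  ⟨{z | match z with
    | Z.x _ _ => False
    | Z.y g => g ∈ O
    | Z.b => p}, z_isOpen.2 ⟨fun _ _ h => h.elim, fun g hg => hO g hg⟩⟩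

@[simp] lemma x_mem_uy {p : Prop} {O : Set (ℕ → ℕ)} {hO} {n m : ℕ} :
    Z.x n m ∈ uy p O hO ↔ False := Iff.rfl
@[simp] lemma y_mem_uy {p : Prop} {O : Set (ℕ → ℕ)} {hO} {g : ℕ → ℕ} :
    Z.y g ∈ uy p O hO ↔ g ∈ O := Iff.rfl
@[simp] lemma b_mem_uy {p : Prop} {O : Set (ℕ → ℕ)} {hO} : Z.b ∈ uy p O hO ↔ p := Iff.rfl

instance z_t0 : T0Space Z := by
  refine ⟨fun {a c} hac => ?_⟩
  have key : ∀ W : Opens Z, a ∈ W ↔ c ∈ W := fun W => hac.mem_open_iff W.2
  have hbox : ∀ (n v : ℕ), ∀ g ∈ {g : ℕ → ℕ | g n ≤ v}, ∃ k, ∀ g' : ℕ → ℕ,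
      (∀ i < k, g' i ≤ g i) → g' ∈ {g : ℕ → ℕ | g n ≤ v} := fun n v g hg =>
    ⟨n + 1, fun g' hg' => le_trans (hg' n (Nat.lt_succ_self n)) hg⟩
  cases a with
  | x n m =>
    cases c with
    | x n' m' =>
      have h1 := key (ux True fun i => if i = n then m else m' + 1)
      have h2 := key (ux True fun i => if i = n' then m' else m + 1)
      by_cases hn : n' = n
      · subst hn
        simp at h1 h2
        have : m = m' := le_antisymm h1 h2
        rw [this]
      · simp [hn] at h1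
    | y g => exact absurd ((key (uy True univ fun _ _ => ⟨0, fun _ _ => trivial⟩)).2 trivial) id
    | b => exact absurd ((key (uy True univ fun _ _ => ⟨0, fun _ _ => trivial⟩)).2 trivial) id
  | y g =>
    cases c with
    | x n' m' =>
      exact absurd ((key (uy True univ fun _ _ => ⟨0, fun _ _ => trivial⟩)).1 trivial) id
    | y g' =>
      congr 1
      funext n
      have h1 := key (uy True {h | h n ≤ g n} (hbox n (g n)))
      have h2 := key (uy True {h | h n ≤ g' n} (hbox n (g' n)))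
      simp at h1 h2
      exact le_antisymm h2 h1
    | b => exact absurd ((key (uy False univ fun _ _ => ⟨0, fun _ _ => trivial⟩)).1 trivial) id
  | b =>
    cases c with
    | x n' m' =>
      exact absurd ((key (uy True univ fun _ _ => ⟨0, fun _ _ => trivial⟩)).1 trivial) id
    | y g' =>
      exact absurd ((key (uy False univ fun _ _ => ⟨0, fun _ _ => trivial⟩)).2 trivial) id
    | b => rfl

/-- A Scott open family meets every increasing sequence whose union it contains. -/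
lemma scott_seq {X : Type*} [TopologicalSpace X] {F : Set (Opens X)} (hF : ScottOpen F)
    (W : ℕ → Opens X) (hW : Monotone W) (U : Opens X) (hU : U ∈ F)
    (hUW : ∀ z ∈ U, ∃ k, z ∈ W k) : ∃ k, W k ∈ F := by
  have h1 : (⨆ k, W k) ∈ F := by
    refine hF.1 U hU _ fun z hz => ?_
    obtain ⟨k, hk⟩ := hUW z hz
    exact Opens.mem_iSup.2 ⟨k, hk⟩
  obtain ⟨d, ⟨k, rfl⟩, hk⟩ := hF.2 (range W) (range_nonempty W)
    (by
      rintro _ ⟨i, rfl⟩ _ ⟨j, rfl⟩
      exact ⟨W (max i j), ⟨_, rfl⟩, hW (le_max_left _ _), hW (le_max_right _ _)⟩) _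
    (isLUB_iSup (f := W)) h1
  exact ⟨k, hk⟩

/-- The open set used in the second case. -/
def dd (p : Prop) (T : Finset ((ℕ → ℕ) × ℕ)) (k : ℕ) (h : ℕ → ℕ) : Opens Z :=
  uy p {g' | ∃ q ∈ T, (∀ i < q.2, g' i ≤ q.1 i) ∧ ∀ i, q.2 ≤ i → i < k → g' i ≤ h i} (by
    rintro g ⟨q, hq, h1, h2⟩
    refine ⟨q.2 + k, fun g' hg' => ⟨q, hq, fun i hi => (hg' i (by omega)).trans (h1 i hi),
      fun i hi hik => (hg' i (by omega)).trans (h2 i hi hik)⟩⟩)

lemma z_coConsonant : CoConsonant Z := by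
  rw [coConsonant_iff]
  intro F hF U hU
  by_cases hx : ∃ n m, Z.x n m ∈ U
  · -- the open set meets the columns
    obtain ⟨n0, m0, h0⟩ := hx
    have hzo := z_isOpen.1 U.2
    obtain ⟨-, hcol, hy⟩ := hzo.1 n0 m0 h0
    classical
    let f : ℕ → ℕ := fun n => Nat.find (hcol n)
    have hf : ∀ n, Z.x n (f n) ∈ U := fun n => Nat.find_spec (hcol n)
    have hf' : ∀ n m, Z.x n m ∈ U ↔ f n ≤ m := fun n m =>
      ⟨fun h => Nat.find_min' (hcol n) h, fun h => (hzo.1 n _ (hf n)).1 m h⟩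
    have claim : ∃ k, ∀ g : ℕ → ℕ, (∀ i < k, g i ≤ f i) → ux (Z.b ∈ U) g ∈ F := by
      by_contra hcon
      push Not at hcon
      choose h hh1 hh2 using hcon
      let H : ℕ → ℕ := fun n => max (f n) ((Finset.range (n + 1)).sup fun k => h k n)
      let g : ℕ → ℕ → ℕ := fun k n => if n < k then f n else H n
      have hHf : ∀ n, f n ≤ H n := fun n => le_max_left _ _
      have hHh : ∀ n k, k ≤ n → h k n ≤ H n := fun n k hk =>
        le_trans (Finset.le_sup (f := fun k => h k n) (Finset.mem_range.2 (by omega)))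
          (le_max_right _ _)
      obtain ⟨k, hk⟩ := scott_seq hF (fun k => ux (Z.b ∈ U) (g k)) (by
        intro k l hkl z hz
        cases z with
        | x n m =>
          simp only [x_mem_ux, g] at hz ⊢
          have := hHf n
          split_ifs at hz ⊢ <;> omega
        | y _ => trivial
        | b => exact hz) U hU (by
        intro z hz
        cases z with
        | x n m =>
          refine ⟨n + 1, ?_⟩
          simp only [x_mem_ux, g]
          rw [if_pos (Nat.lt_succ_self n)]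
          exact (hf' n m).1 hz
        | y _ => exact ⟨0, trivial⟩
        | b => exact ⟨0, hz⟩)
      refine hh2 k (hF.1 _ hk _ ?_)
      intro z hz
      cases z with
      | x n m =>
        simp only [x_mem_ux, g] at hz ⊢
        split_ifs at hz with hnk
        · exact (hh1 k n hnk).trans hz
        · exact (hHh n k (by omega)).trans hz
      | y _ => trivial
      | b => exact hz
    obtain ⟨k, hk⟩ := claim
    refine ⟨(fun n => Z.x n (f n)) '' (Finset.range (k + 1) : Set ℕ) ∪ {z | z = Z.b ∧ Z.b ∈ U},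
      ?_, ?_, ?_⟩
    · refine ((Finset.finite_toSet _).image _).union ((finite_singleton Z.b).subset ?_)
      rintro z ⟨hz, -⟩
      exact hz
    · rintro z (⟨n, -, rfl⟩ | ⟨rfl, h⟩)
      · exact hf n
      · exact h
    · intro W hW
      have hW0 : Z.x 0 (f 0) ∈ W := hW (Or.inl ⟨0, by simp, rfl⟩)
      have hWo := z_isOpen.1 W.2
      obtain ⟨-, hcolW, hyW⟩ := hWo.1 _ _ hW0
      let g : ℕ → ℕ := fun n => if n < k then f n else Nat.find (hcolW n)
      have hg : ∀ n, Z.x n (g n) ∈ W := by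
        intro n
        by_cases hnk : n < k
        · have : g n = f n := if_pos hnk
          rw [this]
          exact hW (Or.inl ⟨n, by simp; omega, rfl⟩)
        · have : g n = Nat.find (hcolW n) := if_neg hnk
          rw [this]
          exact Nat.find_spec (hcolW n)
      refine hF.1 _ (hk g fun i hi => le_of_eq (if_pos hi)) W ?_
      intro z hz
      cases z with
      | x n m => exact (hWo.1 n _ (hg n)).1 m hz
      | y g' => exact hyW g'
      | b => exact hW (Or.inr ⟨rfl, hz⟩)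
  · -- the open set misses the columns
    push Not at hx
    have hUo := z_isOpen.1 U.2
    -- a finite union of boxes is in the family
    have step0 : ∃ T : Finset ((ℕ → ℕ) × ℕ),
        (∀ q ∈ T, ∀ g' : ℕ → ℕ, (∀ i < q.2, g' i ≤ q.1 i) → Z.y g' ∈ U) ∧
          ∀ h, dd (Z.b ∈ U) T 0 h ∈ F := by
      let D : Set (Opens Z) := {W | ∃ T : Finset ((ℕ → ℕ) × ℕ),
        (∀ q ∈ T, ∀ g' : ℕ → ℕ, (∀ i < q.2, g' i ≤ q.1 i) → Z.y g' ∈ U) ∧
          W = dd (Z.b ∈ U) T 0 0}
      obtain ⟨d, ⟨T, hT, rfl⟩, hd⟩ := hF.2 D ⟨_, ∅, by simp, rfl⟩ (by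
        classical
        rintro _ ⟨T1, h1, rfl⟩ _ ⟨T2, h2, rfl⟩
        refine ⟨_, ⟨T1 ∪ T2, fun q hq => ?_, rfl⟩, ?_, ?_⟩
        · rcases Finset.mem_union.1 hq with h | h
          exacts [h1 q h, h2 q h]
        · intro z hz
          cases z with
          | x _ _ => exact hz
          | y g =>
            obtain ⟨q, hq, hq'⟩ := hz
            exact ⟨q, Finset.mem_union_left _ hq, hq'⟩
          | b => exact hz
        · intro z hz
          cases z with
          | x _ _ => exact hz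
          | y g =>
            obtain ⟨q, hq, hq'⟩ := hz
            exact ⟨q, Finset.mem_union_right _ hq, hq'⟩
          | b => exact hz) (sSup D) (isLUB_sSup D) (by
        refine hF.1 U hU _ fun z hz => ?_
        cases z with
        | x n m => exact absurd hz (hx n m)
        | y g =>
          obtain ⟨k, hk⟩ := hUo.2 g hz
          refine Opens.mem_sSup.2 ⟨_, ⟨{(g, k)}, ?_, rfl⟩, ?_⟩
          · intro q hq g' hg'
            rw [Finset.mem_singleton] at hq
            subst hq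
            exact hk g' hg'
          · exact ⟨(g, k), Finset.mem_singleton_self _, fun _ _ => le_refl _,
              fun i _ hi => absurd hi (Nat.not_lt_zero i)⟩
        | b => exact Opens.mem_sSup.2 ⟨_, ⟨∅, by simp, rfl⟩, hz⟩)
      refine ⟨T, hT, fun h => ?_⟩
      have : dd (Z.b ∈ U) T 0 h = dd (Z.b ∈ U) T 0 0 := by
        ext z
        cases z with
        | x _ _ => exact Iff.rfl
        | y g =>
          constructor
          · rintro ⟨q, hq, h1, -⟩
            exact ⟨q, hq, h1, fun i _ hi => absurd hi (Nat.not_lt_zero i)⟩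
          · rintro ⟨q, hq, h1, -⟩
            exact ⟨q, hq, h1, fun i _ hi => absurd hi (Nat.not_lt_zero i)⟩
        | b => exact Iff.rfl
      rw [this]
      exact hd
    obtain ⟨T, hT, hT0⟩ := step0
    -- extend one coordinate at a time
    have step : ∀ k (h : ℕ → ℕ), dd (Z.b ∈ U) T k h ∈ F →
        ∃ h' : ℕ → ℕ, dd (Z.b ∈ U) T (k + 1) h' ∈ F ∧ ∀ i < k, h' i = h i := by
      intro k h hkh
      obtain ⟨m, hm⟩ := scott_seq hF (fun m => dd (Z.b ∈ U) T (k + 1) (Function.update h k m)) (by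
        intro m l hml z hz
        cases z with
        | x _ _ => exact hz
        | y g =>
          obtain ⟨q, hq, h1, h2⟩ := hz
          refine ⟨q, hq, h1, fun i hi hik => (h2 i hi hik).trans ?_⟩
          by_cases hik' : i = k
          · subst hik'
            simpa using hml
          · simp [hik']
        | b => exact hz) _ hkh (by
        intro z hz
        cases z with
        | x _ _ => exact ⟨0, hz⟩
        | y g =>
          obtain ⟨q, hq, h1, h2⟩ := hz
          refine ⟨g k, q, hq, h1, fun i hi hik => ?_⟩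
          by_cases hik' : i = k
          · subst hik'
            simp
          · rw [Function.update_of_ne hik']
            exact h2 i hi (by omega)
        | b => exact ⟨0, hz⟩)
      exact ⟨_, hm, fun i hi => Function.update_of_ne (by omega) _ _⟩
    choose! nxt hnxt1 hnxt2 using step
    let hs : ℕ → ℕ → ℕ := fun k => Nat.rec (fun _ => 0) (fun k h => nxt k h) k
    have hs0 : ∀ k, dd (Z.b ∈ U) T k (hs k) ∈ F := by
      intro k
      induction k with
      | zero => exact hT0 _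
      | succ k ih => exact hnxt1 k _ ih
    have hs1 : ∀ k i, i < k → hs (k + 1) i = hs k i := fun k i hi => hnxt2 k _ (hs0 k) i hi
    let h : ℕ → ℕ := fun i => hs (i + 1) i
    have hh : ∀ k i, i < k → hs k i = h i := by
      intro k i hi
      induction k with
      | zero => omega
      | succ k ih =>
        by_cases hik : i = k
        · subst hik
          rfl
        · rw [hs1 k i (by omega)]
          exact ih (by omega)
    have hh0 : ∀ k, dd (Z.b ∈ U) T k h ∈ F := by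
      intro k
      refine hF.1 _ (hs0 k) _ fun z hz => ?_
      cases z with
      | x _ _ => exact hz
      | y g =>
        obtain ⟨q, hq, h1, h2⟩ := hz
        refine ⟨q, hq, h1, fun i hi hik => ?_⟩
        rw [← hh k i hik]
        exact h2 i hi hik
      | b => exact hz
    -- the finite set
    let ext : (ℕ → ℕ) × ℕ → Z := fun q => Z.y fun i => if i < q.2 then q.1 i else h i
    refine ⟨ext '' (T : Set ((ℕ → ℕ) × ℕ)) ∪ {z | z = Z.b ∧ Z.b ∈ U}, ?_, ?_, ?_⟩
    · refine ((Finset.finite_toSet T).image _).union ((finite_singleton Z.b).subset ?_)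
      rintro z ⟨hz, -⟩
      exact hz
    · rintro z (⟨q, hq, rfl⟩ | ⟨rfl, h⟩)
      · refine hT q hq _ fun i hi => ?_
        rw [if_pos hi]
      · exact h
    · intro W hW
      have hWo := z_isOpen.1 W.2
      have hk : ∀ q ∈ T, ∃ k, ∀ g' : ℕ → ℕ,
          (∀ i < k, g' i ≤ if i < q.2 then q.1 i else h i) → Z.y g' ∈ W := fun q hq =>
        hWo.2 _ (hW (Or.inl ⟨q, hq, rfl⟩))
      choose! kk hkk using hk
      refine hF.1 _ (hh0 (T.sup kk)) W fun z hz => ?_
      cases z with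
      | x _ _ => exact hz.elim
      | y g =>
        obtain ⟨q, hq, h1, h2⟩ := hz
        refine hkk q hq g fun i hi => ?_
        have hi' : i < T.sup kk := lt_of_lt_of_le hi (Finset.le_sup hq)
        split_ifs with hiq
        · exact h1 i hiq
        · exact h2 i (by omega) hi'
      | b => exact hW (Or.inr ⟨rfl, hz⟩)

lemma boxO (N J : ℕ) : ∀ g ∈ {g : ℕ → ℕ | g N ≤ J}, ∃ k, ∀ g' : ℕ → ℕ,
    (∀ i < k, g' i ≤ g i) → g' ∈ {g : ℕ → ℕ | g N ≤ J} := fun _ hg =>
  ⟨N + 1, fun _ hg' => le_trans (hg' N (Nat.lt_succ_self N)) hg⟩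

/-! ### The lower powerspace is not co-consonant -/

/-- The closed set generated by a point of a column and `b`. -/
def cx (n m : ℕ) : Lower Z := cl {Z.x n m, Z.b}

/-- The closure of a function. -/
def cy (f : ℕ → ℕ) : Lower Z := cl {Z.y f}

lemma cx_meets {n m : ℕ} {U : Set Z} (hU : IsOpen U) :
    ((cx n m).1 ∩ U).Nonempty ↔ Z.x n m ∈ U ∨ Z.b ∈ U := by
  refine (cl_meets hU).trans ⟨?_, ?_⟩
  · rintro ⟨z, rfl | rfl, hz⟩
    exacts [Or.inl hz, Or.inr hz]
  · rintro (h | h)
    exacts [⟨_, Or.inl rfl, h⟩, ⟨_, Or.inr rfl, h⟩]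

lemma cy_meets {f : ℕ → ℕ} {U : Set Z} (hU : IsOpen U) :
    ((cy f).1 ∩ U).Nonempty ↔ Z.y f ∈ U := by
  refine (cl_meets hU).trans ⟨?_, fun h => ⟨_, rfl, h⟩⟩
  rintro ⟨z, rfl, hz⟩
  exact hz

/-- The Scott open family. -/
def HH : Set (Opens (Lower Z)) :=
  {V | ∃ f : ℕ → ℕ, (∀ n, cx n (f n) ∈ V) ∧ cy f ∈ V}

lemma hh_scott : ScottOpen HH := by
  refine ⟨fun V hV V' hle => ?_, ?_⟩
  · obtain ⟨f, h1, h2⟩ := hV
    exact ⟨f, fun n => hle (h1 n), hle h2⟩
  · intro D hD hdir s hs hsH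
    obtain ⟨f, h1, h2⟩ := hsH
    have hs' : s = sSup D := hs.unique (isLUB_sSup D)
    have hmem : ∀ K : Lower Z, K ∈ s → ∃ V ∈ D, K ∈ V := by
      intro K hK
      rw [hs'] at hK
      exact Opens.mem_sSup.1 hK
    obtain ⟨V0, hV0, hkV0⟩ := hmem _ h2
    obtain ⟨T, hT, hT1, hT2⟩ := lower_basis V0.2 _ hkV0
    have hWo : IsOpen (⋂₀ T) := hT.isOpen_sInter fun U hU => (hT1 U hU).1
    have hWf : Z.y f ∈ ⋂₀ T := fun U hU => (cy_meets (hT1 U hU).1).1 (hT1 U hU).2
    obtain ⟨k, hk⟩ := (z_isOpen.1 hWo).2 f hWf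
    have hfin : ∀ l : ℕ, ∃ V ∈ D, V0 ≤ V ∧ ∀ n < l, cx n (f n) ∈ V := by
      intro l
      induction l with
      | zero => exact ⟨V0, hV0, le_refl _, fun n hn => absurd hn (Nat.not_lt_zero n)⟩
      | succ l ih =>
        obtain ⟨V, hV, hV0V, hVn⟩ := ih
        obtain ⟨V', hV', hlV'⟩ := hmem _ (h1 l)
        obtain ⟨V'', hV'', ha, hb⟩ := hdir V hV V' hV'
        refine ⟨V'', hV'', hV0V.trans ha, fun n hn => ?_⟩
        rcases Nat.lt_succ_iff_lt_or_eq.1 hn with h | h
        · exact ha (hVn n h)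
        · subst h
          exact hb hlV'
    obtain ⟨V, hV, hV0V, hVn⟩ := hfin (k + 1)
    obtain ⟨T', hT', hT1', hT2'⟩ := lower_basis V.2 _ (hVn 0 (Nat.succ_pos k))
    let T'' : Set (Set Z) := {U | U ∈ T' ∧ Z.b ∉ U}
    have hWo' : IsOpen (⋂₀ T'') :=
      (hT'.subset fun U hU => hU.1).isOpen_sInter fun U hU => (hT1' U hU.1).1
    have hx0 : Z.x 0 (f 0) ∈ ⋂₀ T'' := by
      intro U hU
      rcases (cx_meets (hT1' U hU.1).1).1 (hT1' U hU.1).2 with h | h
      · exact h
      · exact absurd h hU.2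
    obtain ⟨-, hcol, -⟩ := (z_isOpen.1 hWo').1 _ _ hx0
    choose c hc using hcol
    refine ⟨V, hV, fun n => if n < k then f n else c n, fun n => ?_, ?_⟩
    · by_cases hn : n < k
      · simp only [if_pos hn]
        exact hVn n (by omega)
      · simp only [if_neg hn]
        refine hT2' _ fun U hU => (cx_meets (hT1' U hU).1).2 ?_
        by_cases hb : Z.b ∈ U
        · exact Or.inr hb
        · exact Or.inl (hc n U ⟨hU, hb⟩)
    · refine hV0V (hT2 _ fun U hU => (cy_meets (hT1 U hU).1).2 ?_)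
      refine hk _ (fun i hi => ?_) U hU
      simp only [if_pos hi]
      exact le_refl _

lemma lower_not : ¬ CoConsonant (Lower Z) := by
  rw [coConsonant_iff]
  intro hcc
  let A : Opens Z := ux False fun _ => 0
  let B : Opens Z := uy True ∅ fun _ h => h.elim
  let Y : Opens Z := uy False univ fun _ _ => ⟨0, fun _ _ => trivial⟩
  have hU : ((dia (A : Set Z) A.2 ⊓ dia (B : Set Z) B.2) ⊔ dia (Y : Set Z) Y.2) ∈ HH := by
    refine ⟨fun _ => 0, fun n => Or.inl ⟨?_, ?_⟩, Or.inr ?_⟩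
    · exact (cx_meets A.2).2 (Or.inl (le_refl 0))
    · exact (cx_meets B.2).2 (Or.inr trivial)
    · exact (cy_meets Y.2).2 trivial
  obtain ⟨S, hS, hSU, hSW⟩ := hcc HH hh_scott _ hU
  have hN : ∃ N, ∀ K ∈ S, (∃ g, Z.y g ∈ K.1) ∨ (Z.b ∈ K.1 ∧ ∃ n m, n ≠ N ∧ Z.x n m ∈ K.1) := by
    have h1 : ∀ K ∈ S, ∀ᶠ N in Filter.atTop, (∃ g, Z.y g ∈ K.1) ∨
        (Z.b ∈ K.1 ∧ ∃ n m, n ≠ N ∧ Z.x n m ∈ K.1) := by
      intro K hK
      by_cases hy : ∃ g, Z.y g ∈ K.1
      · exact Filter.Eventually.of_forall fun _ => Or.inl hy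
      · rcases hSU hK with ⟨⟨z, hz, hzA⟩, ⟨w, hw, hwB⟩⟩ | ⟨z, hz, hzY⟩
        · have hb : Z.b ∈ K.1 := by
            cases w with
            | x n m => exact hwB.elim
            | y g => exact hwB.elim
            | b => exact hw
          cases z with
          | x n m =>
            filter_upwards [Filter.eventually_gt_atTop n] with N hN
            exact Or.inr ⟨hb, n, m, hN.ne, hz⟩
          | y g => exact absurd ⟨g, hz⟩ hy
          | b => exact hzA.elim
        · cases z with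
          | x n m => exact hzY.elim
          | y g => exact absurd ⟨g, hz⟩ hy
          | b => exact hzY.elim
    exact ((Filter.eventually_all_finite hS).2 h1).exists
  obtain ⟨N, hN⟩ := hN
  have hJ : ∃ J, ∀ K ∈ S, (∃ g, Z.y g ∈ K.1) → ∃ g, Z.y g ∈ K.1 ∧ g N ≤ J := by
    have h1 : ∀ K ∈ S, ∀ᶠ J in Filter.atTop, (∃ g, Z.y g ∈ K.1) →
        ∃ g, Z.y g ∈ K.1 ∧ g N ≤ J := by
      intro K _
      by_cases hy : ∃ g, Z.y g ∈ K.1
      · obtain ⟨g, hg⟩ := hy
        filter_upwards [Filter.eventually_ge_atTop (g N)] with J hJ _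
        exact ⟨g, hg, hJ⟩
      · exact Filter.Eventually.of_forall fun J h => absurd h hy
    exact ((Filter.eventually_all_finite hS).2 h1).exists
  obtain ⟨J, hJ⟩ := hJ
  let W1 : Opens Z := ux False fun n => if n = N then J + 1 else 0
  let W2 : Opens Z := uy False {g | g N ≤ J} (boxO N J)
  have hV : ((dia (W1 : Set Z) W1.2 ⊓ dia (B : Set Z) B.2) ⊔ dia (W2 : Set Z) W2.2) ∈ HH := by
    refine hSW _ fun K hK => ?_
    rcases hN K hK with hy | ⟨hb, n, m, hn, hx⟩
    · obtain ⟨g, hg, hgN⟩ := hJ K hK hy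
      exact Or.inr ⟨_, hg, hgN⟩
    · refine Or.inl ⟨⟨_, hx, ?_⟩, ⟨_, hb, trivial⟩⟩
      change Z.x n m ∈ W1
      simp [W1, hn]
  obtain ⟨f, h1, h2⟩ := hV
  have h3 : J + 1 ≤ f N := by
    rcases h1 N with ⟨h, -⟩ | h
    · rcases (cx_meets W1.2).1 h with h' | h'
      · have h'' : (if N = N then J + 1 else 0) ≤ f N := h'
        simpa using h''
      · exact h'.elim
    · rcases (cx_meets W2.2).1 h with h' | h'
      · exact h'.elim
      · exact h'.elim
  have h4 : f N ≤ J := by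
    rcases h2 with ⟨-, h⟩ | h
    · exact ((cy_meets B.2).1 h).elim
    · exact (cy_meets W2.2).1 h
  omega

/-- There is a co-consonant T0 space whose lower powerspace is not co-consonant. -/
theorem result : ∃ (X : Type) (_ : TopologicalSpace X),
    T0Space X ∧ CoConsonant X ∧ ¬ CoConsonant (Lower X) :=
  ⟨Z, zTopology, z_t0, z_coConsonant, lower_not⟩

end Pool.Agent.Results.MP_a60c23_gt.LowerPowerspaceFails
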